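import Pool.Agent.Y927.LR.Dens

/-!
The inequality `trdeg F_q ≥ 1 + φ(q) / 2` is false for `q = 14`, and for all `q` outside a set of
density zero.
-/

set_option autoImplicit false

namespace Pool.Agent.Results.MP_274814_nt.CoprimeDisproof

/-- The subfield of `ℂ` generated by `π` and the values `Γ(a / q)`, `1 ≤ a ≤ q - 1`, `gcd(a, q) = 1`. -/
noncomputable def F (q : ℕ) : IntermediateField ℚ ℂ :=
  IntermediateField.adjoin ℚ (insert (Real.pi : ℂ)
    {z | ∃ a : ℕ, 1 ≤ a ∧ a ≤ q - 1 ∧ a.Coprime q ∧ z = Complex.Gamma ((a : ℂ) / (q : ℂ))})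

/-- The inequality of Q1 is false (`trdeg F_q ≤ φ(q) / 2`) at `q = 14`; it is false whenever `-1` is
not a power of some prime divisor `l` of `q` modulo the largest divisor of `q` prime to `l`; and the
set of the `q > 2` for which it is true has upper Banach density zero. -/
theorem result :
    Algebra.trdeg ℚ (F 14) ≤ ((Nat.totient 14 / 2 : ℕ) : Cardinal) ∧
    (∀ q l : ℕ, 2 < q → l.Prime → l ∣ q →
      (∀ k : ℕ, (l : ZMod (q / l ^ q.factorization l)) ^ k ≠ -1) →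
      Algebra.trdeg ℚ (F q) ≤ ((q.totient / 2 : ℕ) : Cardinal)) ∧
    ∀ ε : ℝ, 0 < ε → ∃ L : ℕ, ∀ X : ℕ, L ≤ X → ∀ b : ℕ,
      (({q : ℕ | 2 < q ∧ ((1 + q.totient / 2 : ℕ) : Cardinal) ≤ Algebra.trdeg ℚ (F q)} ∩
        Set.Ioc b (b + X)).ncard : ℝ) ≤ ε * X := by
  refine ⟨?_, ?_, ?_⟩
  · refine Pool.Agent.Y927.LR.trdeg_drop (q := 14) (l := 2) (m := 7) (by norm_num) Nat.prime_two
      (by norm_num) (by norm_num) (by norm_num) ?_
    have h : ∀ k : ℕ, (2 : ZMod 7) ^ k = 1 ∨ (2 : ZMod 7) ^ k = 2 ∨ (2 : ZMod 7) ^ k = 4 := by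
      intro k
      induction k with
      | zero => left; rfl
      | succ k ih =>
        rw [pow_succ]
        rcases ih with h | h | h <;> rw [h] <;> decide
    intro k hk
    have h2 := h k
    rw [Nat.cast_ofNat] at hk
    rw [hk] at h2
    revert h2
    decide
  · intro q l hq hl hlq h
    exact Pool.Agent.Y927.LR.trdeg_drop (by omega) hl hlq (Nat.ordCompl_dvd q l)
      (Nat.coprime_ordCompl hl (by omega)) h
  · intro ε hε
    obtain ⟨L, hL⟩ := Pool.Agent.Y927.LR.dens ε hε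
    refine ⟨L, fun X hX b => le_trans ?_ (hL X hX b)⟩
    have hfin : ∀ S : Set ℕ, (S ∩ Set.Ioc b (b + X)).Finite := fun S =>
      (Set.finite_Ioc b (b + X)).subset Set.inter_subset_right
    have := Set.ncard_le_ncard (s := {q : ℕ | 2 < q ∧ ((1 + q.totient / 2 : ℕ) : Cardinal) ≤
        Algebra.trdeg ℚ (F q)} ∩ Set.Ioc b (b + X))
      (t := {q : ℕ | ¬ Algebra.trdeg ℚ (Pool.Agent.Y927.LR.F q) ≤ ((q.totient / 2 : ℕ) : Cardinal)} ∩
        Set.Ioc b (b + X)) ?_ (hfin _)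
    · exact_mod_cast this
    · rintro q ⟨⟨-, h1⟩, h2⟩
      refine ⟨fun h3 => ?_, h2⟩
      have h4 := h1.trans h3
      have h5 : 1 + q.totient / 2 ≤ q.totient / 2 := by exact_mod_cast h4
      omega

end Pool.Agent.Results.MP_274814_nt.CoprimeDisproof
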